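import Pool.Agent.DL.P.Defs

/-!
# DELTA (MP_d362fb_lc), row H-e: codes of events
-/

set_option autoImplicit false

namespace Pool.Agent.H60.DL

open Pool.Agent.DL.P

/-- a system all of whose promises are in the range of `c` is determined by its code -/
theorem comap_inj {c : ℕ → Prom} {e e' : Sys Prom} {Z : Fr Prom} (hZ : Z.Q ⊆ Set.range c)
    (h : ContIn e Z) (h' : ContIn e' Z) (hc : e.comap c = e'.comap c) : e = e' := by
  have hn : (e.comap c).n = (e'.comap c).n := congrArg Sys.n hc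
  have hrt : (e.comap c).rt = (e'.comap c).rt := congrArg Sys.rt hc
  have hJ : (e.comap c).J = (e'.comap c).J := congrArg Sys.J hc
  have hE : (e.comap c).E = (e'.comap c).E := congrArg Sys.E hc
  have hK : (e.comap c).K = (e'.comap c).K := congrArg Sys.K hc
  have hZ' : ∀ p q, (e.comap c).Z p q = (e'.comap c).Z p q := fun p q => by rw [hc]
  have hX : ∀ j, (e.comap c).X j = (e'.comap c).X j := fun j => by rw [hc]
  have keyX : ∀ {a b : Sys Prom}, ContIn a Z → (∀ j, (a.comap c).X j = (b.comap c).X j) →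
      ∀ j, ∀ f ∈ a.X j, f ∈ b.X j := by
    intro a b ha hab j f hf
    have hfr : ∃ g : Fact ℕ, g.map c = f := by
      have h1 := ha.X j f hf
      cases f with
      | nd x => exact ⟨.nd x, rfl⟩
      | it x m v => exact ⟨.it x m v, rfl⟩
      | bl x m => exact ⟨.bl x m, rfl⟩
      | ds x y => exact ⟨.ds x y, rfl⟩
      | pr φ =>
        obtain ⟨i, hi⟩ := hZ h1
        exact ⟨.pr i, by show Fact.pr (c i) = _; rw [hi]⟩
      | rl φ m =>
        obtain ⟨i, hi⟩ := hZ h1
        exact ⟨.rl i m, by show Fact.rl (c i) m = _; rw [hi]⟩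
    obtain ⟨g, rfl⟩ := hfr
    have h2 : g ∈ (a.comap c).X j := hf
    rw [hab j] at h2
    exact h2
  have keyQ : ∀ {a b : Sys Prom}, ContIn a Z → (∀ p q, (a.comap c).Z p q = (b.comap c).Z p q) →
      ∀ p q, ∀ φ ∈ (a.Z p q).Q, φ ∈ (b.Z p q).Q := by
    intro a b ha hab p q φ hφ
    obtain ⟨i, rfl⟩ := hZ ((ha.Z p q).2.1 hφ)
    have h2 : i ∈ ((a.comap c).Z p q).Q := hφ
    rw [hab p q] at h2
    exact h2
  refine Sys.ext hn hrt hJ hE hK ?_ ?_
  · funext p q
    have hN : ((e.comap c).Z p q).N = ((e'.comap c).Z p q).N := congrArg Fr.N (hZ' p q)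
    have hL : ((e.comap c).Z p q).L = ((e'.comap c).Z p q).L := congrArg Fr.L (hZ' p q)
    refine Fr.ext hN ?_ hL
    exact Set.Subset.antisymm (keyQ h hZ' p q) (keyQ h' (fun p q => (hZ' p q).symm) p q)
  · funext j
    exact Set.Subset.antisymm (keyX h hX j) (keyX h' (fun j => (hX j).symm) j)

/-- the promise of label `k` whose events at `m` are the systems with the property `G m` inside
the frame of the given enumerations -/
def mkP (k : D) (c : ℕ → Prom) (nd : ℕ → Node) (lb : ℕ → D) (G : ℕ → Sys Prom → Prop) : Prom :=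
  .mk k c nd lb fun m s => ∃ e, s = e.comap c ∧
    ContIn e ⟨Set.range nd, Set.range c, Set.range lb⟩ ∧ G m e

theorem mkP_lab {k : D} {c : ℕ → Prom} {nd : ℕ → Node} {lb : ℕ → D}
    {G : ℕ → Sys Prom → Prop} : (mkP k c nd lb G).lab = k := rfl

theorem ev_mkP {k : D} {c : ℕ → Prom} {nd : ℕ → Node} {lb : ℕ → D}
    {G : ℕ → Sys Prom → Prop} {m : ℕ} {e : Sys Prom} :
    Ev (mkP k c nd lb G) m e ↔
      ContIn e ⟨Set.range nd, Set.range c, Set.range lb⟩ ∧ G m e := by
  constructor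
  · rintro ⟨h1, e', h2, h3, h4⟩
    have h5 : e = e' := comap_inj (Z := ⟨Set.range nd, Set.range c, Set.range lb⟩)
      subset_rfl h1 h3 h2
    exact ⟨h1, h5 ▸ h4⟩
  · rintro ⟨h1, h2⟩
    exact ⟨h1, e, rfl, h1, h2⟩

end Pool.Agent.H60.DL
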