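import Pool.Agent.DL.P.V.Stm

/-!
# DELTA (MP_d362fb_lc), row V-B: the star system is a valid system of `P_k`
-/

set_option autoImplicit false

namespace Pool.Agent.H60.DL

open H5.DL Pool.Agent.DL.P Pool.Agent.DL.P.V

theorem up_mono {l l' : D} {s : Node} (h : l' ≤ l) (hu : Up l s) : Up l' s := by
  obtain ⟨ν, d, h1, h2⟩ := hu
  exact ⟨ν, d, h1, Ll.of_le h h2⟩

theorem lab_mem {Z : Fr Prom} {φ : Prom} (h : φ.In Z) : φ.lab ∈ Z.L := by
  cases φ with
  | nil k => exact h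
  | mk k c nd lb R => exact h.1

theorem star_adm {r : Sys Prom} {s0 : Node} {s : ℕ → Node} {Q : Set ℕ} {W : ℕ → Set Node}
    {k : D} (hv : Valid Legal r) (hp : Plan r s0 s Q W) {p q : ℕ} (hE : r.E p q) {l : D}
    (hl : l ∈ (r.Z p q).L) (h : l ∈ lowK r k s p) : l ∈ lowK r k s q :=
  ⟨hv.adm p q hE l hl h.1, h.2.1, hp.adm p q hE l hl h.1 h.2.2⟩

theorem star_keep {r : Sys Prom} {s0 : Node} {s : ℕ → Node} {Q : Set ℕ} {W : ℕ → Set Node}
    {k : D} (hv : Valid Legal r) (hp : Plan r s0 s Q W) {p q : ℕ} (hE : r.E p q)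
    {f : Fact Prom} (hf : (r.Z p q).Has f) (h : Keep (lowK r k s p) f) :
    Keep (lowK r k s q) f := by
  cases f with
  | nd x => exact trivial
  | it x m v => exact trivial
  | bl x m => exact trivial
  | ds x y => exact trivial
  | pr ψ => exact star_adm hv hp hE (lab_mem ((hv.good p q hE).z3 ψ hf)) h
  | rl ψ m => exact star_adm hv hp hE (lab_mem ((hv.good p q hE).z3 ψ hf)) h

theorem sStar : SStar := by
  intro r s0 s Q W i m φ hv hp hi hφ hge
  have hiJ : i ∈ r.J := hp.QJ i hi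
  have hkK : φ.lab ∈ r.K i := ((hv.val i hiJ).leg φ hφ).2
  refine ⟨?_, ?_, fun j _ l hl => hl.2.1⟩
  · refine ⟨hv.fin, hiJ, hv.Es, hv.EJ, hv.forest, ?_, hv.symZ, hv.good, ?_, hv.nZ, ?_, ?_, ?_⟩
    · intro j hj l l' hle hl
      exact ⟨hv.low j hj hle hl.1, Ll.of_le hle hl.2.1, up_mono hle hl.2.2⟩
    · intro j hj
      have h1 := hv.nX j hj
      refine Set.eq_empty_of_forall_notMem ?_
      rintro f (⟨hf, -⟩ | ⟨x, hx, -⟩)
      · rw [h1] at hf; exact hf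
      · rw [h1] at hx; exact hx
    · intro j hj
      have hx := hv.val j hj
      refine ⟨?_, ?_, ?_, ?_, ?_, ?_, ?_⟩
      · have h1 : {f : Fact Prom | ∃ x, .nd x ∈ r.X j ∧ f = .bl x m} ⊆
            (fun f : Fact Prom => match f with
              | .nd x => Fact.bl x m
              | g => g) '' r.X j := by
          rintro f ⟨x, h2, rfl⟩
          exact ⟨.nd x, h2, rfl⟩
        refine (hx.fin.union ((hx.fin.image _).subset h1)).subset ?_
        rintro f (⟨hf, -⟩ | hf)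
        · exact Or.inl hf
        · exact Or.inr hf
      · rintro x k v (⟨hf, -⟩ | ⟨y, -, hf⟩)
        · exact ⟨Or.inl ⟨(hx.itb x k v hf).1, trivial⟩, (hx.itb x k v hf).2⟩
        · cases hf
      · rintro x k (⟨hf, -⟩ | ⟨y, hy, hf⟩)
        · exact Or.inl ⟨hx.blx x k hf, trivial⟩
        · cases hf
          exact Or.inl ⟨hy, trivial⟩
      · rintro x y (⟨hf, -⟩ | ⟨z, -, hf⟩)
        · exact ⟨Or.inl ⟨(hx.dsx x y hf).1, trivial⟩, Or.inl ⟨(hx.dsx x y hf).2, trivial⟩⟩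
        · cases hf
      · rintro ψ k (⟨hf, hk⟩ | ⟨z, -, hf⟩)
        · exact Or.inl ⟨hx.rlx ψ k hf, hk⟩
        · cases hf
      · rintro x k v v' (⟨hf, -⟩ | ⟨z, -, hf⟩) (⟨hf', -⟩ | ⟨z', -, hf'⟩)
        · exact hx.fn x k v v' hf hf'
        · cases hf'
        · cases hf
        · cases hf
      · rintro ψ (⟨hf, hk⟩ | ⟨z, -, hf⟩)
        · exact ⟨⟨hk.2.1, (hx.leg ψ hf).1⟩, hk⟩
        · cases hf
    · intro p q hE l hl h
      exact star_adm hv hp hE hl h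
    · rintro p q hE f hf (⟨h1, h2⟩ | ⟨x, h1, rfl⟩)
      · exact Or.inl ⟨hv.sh p q hE f hf h1, star_keep hv hp hE hf h2⟩
      · exact Or.inr ⟨x, hv.sh p q hE (.nd x) hf h1, rfl⟩
  · ext l
    refine ⟨fun hl => hl.2.1, fun hl => ⟨hv.low i hiJ (Ll.le hl) hkK, hl, ?_⟩⟩
    obtain ⟨ν, d, h1, h2⟩ := hge
    exact ⟨ν, d, h1, Ll.trans_le hl h2⟩

end Pool.Agent.H60.DL
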